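import Mathlib
import Pool.Agent.H528.Col

set_option autoImplicit false

/-!
# Prime tuples in one colour class of an arbitrary set of primes, with shifts from arbitrary sparse sets

Let `Q` be an ARBITRARY set of at least `α N / log N` primes up to `N`, coloured with `r` colours in an arbitrary way, and
let `A` be an ARBITRARY set of at least `N ^ δ` shifts, `δ < 1`. For many `k`-element subsets `H` of `A`, namely for sets
`H` with the total weight `(α ^ k / (2 r) ^ (k - 1)) (1 - c) - η` times the number of all of them, if `H` is weighted with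
the constant `𝔖(H)` of the conjecture, there are at least `c (α ^ k / r ^ (k - 1)) N / (log N) ^ k` integers `n` for which
all `n + h`, `h ∈ H`, are elements of `Q` of one colour. For triples of primes (`α = r = 1`) the weight is `1 / 4`.
-/

namespace Pool.Agent.Results.MP_c0d11e_nt.OneColourInSparseSets

open Finset Filter
open Pool.Agent.H387R2.Uni

open Classical in
/-- the number of the `1 ≤ n ≤ N` such that all the numbers `n + h`, `h ∈ H`, are elements of `Q` of the same colour -/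
noncomputable def count (Q : Finset ℕ) (col : ℕ → ℕ) (H : Finset ℕ) (N : ℕ) : ℕ :=
  ((Icc 1 N).filter (fun n => (∀ h ∈ H, n + h ∈ Q) ∧ ∀ h ∈ H, ∀ h' ∈ H, col (n + h) = col (n + h'))).card

open Pool.Agent.Y822 Pool.Agent.H528.Tup Pool.Agent.H528.UpLo

open Classical in
lemma cC_le_count {N r : ℕ} {Q : Finset ℕ} {col : ℕ → ℕ} {H : Finset ℕ} (hH : H.Nonempty) :
    cC N r Q col H ≤ count Q col H N := by
  obtain ⟨h0, hh0⟩ := hH
  unfold cC count
  have h2 : ∀ j ∈ range r, ((Icc 1 N).filter (fun n => ∀ h ∈ H, n + h ∈ Q ∧ col (n + h) = j)).card =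
      ∑ n ∈ Icc 1 N, if (∀ h ∈ H, n + h ∈ Q ∧ col (n + h) = j) then 1 else 0 := by
    intro j _
    rw [card_eq_sum_ones, sum_filter]
  rw [sum_congr rfl h2, sum_comm, card_eq_sum_ones, sum_filter]
  refine sum_le_sum fun n _ => ?_
  by_cases hp : (∀ h ∈ H, n + h ∈ Q) ∧ ∀ h ∈ H, ∀ h' ∈ H, col (n + h) = col (n + h')
  · rw [if_pos hp]
    by_cases hj : col (n + h0) ∈ range r
    · rw [sum_eq_single (col (n + h0))]
      · split_ifs <;> omega
      · intro j _ hj'
        rw [if_neg]
        intro h3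
        exact hj' (h3 h0 hh0).2.symm
      · intro h3
        exact absurd hj h3
    · rw [sum_eq_zero]
      · omega
      · intro j hj'
        rw [if_neg]
        intro h3
        rw [(h3 h0 hh0).2] at hj
        exact hj hj'
  · rw [if_neg hp, sum_eq_zero]
    intro j _
    rw [if_neg]
    intro h3
    exact hp ⟨fun h hh => (h3 h hh).1, fun h hh h' hh' => by rw [(h3 h hh).2, (h3 h' hh').2]⟩

open Classical in
theorem result :
    -- the constants are convergent products, positive for admissible sets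
    (∀ H : Finset ℕ, HasProd (fun p : Nat.Primes => locT H p) (CT H) ∧ (Adm H → 0 < CT H)) ∧
    ∀ k r : ℕ, 2 ≤ k → 1 ≤ r → ∀ α : ℝ, 0 < α → ∀ η : ℝ, 0 < η → ∀ c : ℝ, 0 ≤ c → c < 1 →
      ∃ δ : ℝ, 0 < δ ∧ δ < 1 ∧ ∃ N₀ : ℕ, ∀ N : ℕ, N₀ ≤ N →
        -- an arbitrary set of primes with an arbitrary colouring
        ∀ Q : Finset ℕ, (∀ q ∈ Q, q.Prime ∧ q ≤ N) → α * (N / Real.log N) ≤ Q.card →
        ∀ col : ℕ → ℕ, (∀ q ∈ Q, col q < r) →
        -- an arbitrary set of shifts
        ∀ A : Finset ℕ, (∀ a ∈ A, 1 ≤ a ∧ (a : ℝ) ≤ N / Real.log N ^ 2) → (N : ℝ) ^ δ ≤ A.card →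
          (α ^ k / r ^ (k - 1) * (1 - c) / 2 ^ (k - 1) - η) * A.card.choose k ≤
            ∑ H ∈ (A.powersetCard k).filter
              (fun H => c * (α ^ k / r ^ (k - 1) * (N / Real.log N ^ k)) ≤ count Q col H N), CT H := by
  refine ⟨fun H => ⟨CT_hasProd _, fun hA => ?_⟩, fun k r hk hr α hα η hη c hc0 hc1 => ?_⟩
  · rw [← CT_en]
    apply Pool.Agent.H386R2.HL.singularSeries_pos (en_inj _)
    intro p hp
    rw [nu_en]
    exact hA p hp
  · obtain ⟨k, rfl⟩ : ∃ j, k = j + 2 := ⟨k - 2, by omega⟩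
    obtain ⟨δ, hδ0, hδ1, h⟩ := col_fin k r hr α η c hα hη hc0 hc1
    obtain ⟨N₀, hN₀⟩ := eventually_atTop.1 h
    refine ⟨δ, hδ0, hδ1, N₀, fun N hN Q hQ hQc col hcol A hA hAc => ?_⟩
    have h1 := hN₀ N hN Q hQ hQc col hcol A hA hAc
    refine h1.trans ?_
    refine sum_le_sum_of_subset_of_nonneg (fun H hH => ?_) (fun H _ _ => CT_nonneg' H)
    rw [mem_filter] at hH ⊢
    refine ⟨hH.1, hH.2.trans ?_⟩
    have hne : H.Nonempty := by
      rw [← card_pos, (mem_powersetCard.1 hH.1).2]
      omega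
    exact_mod_cast cC_le_count hne

end Pool.Agent.Results.MP_c0d11e_nt.OneColourInSparseSets
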