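import Pool.Agent.H566.NLTup
import Pool.Agent.H566.PolyMain
import Pool.Agent.H566.BohrLin

/-!
# The formula of Hardy and Littlewood for almost all prime tuples whose shifts are in sparse sets given by a polynomial,
# or by any sequence without linear correlations, modulo one

Let `k, D ≥ 1` and let `A i`, `i = 1, ..., k`, be the sets of the multiples `a ≤ X` of `D` with `‖φ i a - β i‖ ≤ δ i`. If the
sequences `φ i` have no linear correlations, that is if the sums of `e(j φ i n + t n)` over `n ≤ X` are at most `X ^ (1 - ρ)`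
on average over `j`, `1 ≤ j ≤ 4 / δ i` (summed over these `j`), for all real `t`, then `A i` has at least `δ i X / (34 D)`
members, and for almost all vectors `a ∈ A 1 × ⋯ × A k` the number of primes `p ≤ X` for which all `p + a i` are prime is
`𝔖 X / (log X) ^ (k + 1)` up to a relative error of at most `ε`. For `k = 2`, `D = 6` these are prime triples, and all the
vectors are admissible.

The condition holds for polynomials: for real polynomials `f i` of the degrees `d i ≥ 2` whose leading coefficients are not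
too close to fractions with small denominators, with `δ i ≥ X ^ (ρ - 2 ^ (1 - d i))`. This is uniform in the polynomials.

* For `δ i = X ^ (-θ i)`, `θ i < 2 ^ (1 - d i)`, it holds for all large `X` if the leading coefficients are of finite type:
  `‖α q‖ ≥ c q ^ (-τ)` for some `c > 0` and `τ < d - 1 + θ`.
* For polynomials with one common irrational leading coefficient, which is otherwise arbitrary, it holds for arbitrarily
  large `X`.

Proof. Trigonometric minorants and majorants of the arcs give the lower bound for the number of the members and show that the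
additive energy of `A i` is nearly minimal. For such families the formula is a theorem of the starting files
(`MP_68a45e_nt/FamiliesOfShifts`). For the polynomials, Weyl's inequality is averaged over the multiples `j f i`.
-/

set_option autoImplicit false

namespace Pool.Agent.Results.MP_c0d11e_nt.PhaseShifts

open Finset Polynomial

/-- The distance of a real number to the nearest integer. -/
noncomputable def distInt (x : ℝ) : ℝ := |x - round x|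

/-- The number of the residues `r` modulo `p` for which `p` divides `r` or one of the `r + a i`. -/
def nu {k : ℕ} (a : Fin k → ℕ) (p : ℕ) : ℕ := ((range p).filter (fun r => p ∣ r ∨ ∃ i, p ∣ r + a i)).card

/-- The product over the primes `p ≤ z` of `(1 - ν(p) / p) / (1 - 1 / p) ^ (k + 1)`. -/
noncomputable def sing {k : ℕ} (a : Fin k → ℕ) (z : ℕ) : ℝ :=
  ∏ p ∈ (Icc 1 z).filter Nat.Prime, (1 - (nu a p : ℝ) / p) / (1 - 1 / (p : ℝ)) ^ (k + 1)

/-- The primes `p ≤ N` for which all the `p + a i` are primes. -/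
def tuples {k : ℕ} (a : Fin k → ℕ) (N : ℕ) : Finset ℕ := (Icc 1 N).filter (fun p => p.Prime ∧ ∀ i, (p + a i).Prime)

/-- For every prime `p` there is an integer `r` such that `p` divides neither `r` nor any `r + a i`. -/
def Admissible {k : ℕ} (a : Fin k → ℕ) : Prop :=
  ∀ p : ℕ, p.Prime → ∃ r : ℤ, ¬ (p : ℤ) ∣ r ∧ ∀ i, ¬ (p : ℤ) ∣ r + (a i : ℤ)

/-- The formula of Hardy and Littlewood for the shifts `a 1, ..., a k` and the primes up to `N`: the
singular series converges, its value `S` predicts the number of the `p ∈ tuples a N`, counted with the weights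
`log p * ∏ i, log (p + a i)`, with an error of at most `N / log ^ U N`, and, if the shifts are admissible, `S` is
positive and `S N / log ^ (k + 1) N` predicts the number of the `p ∈ tuples a N` with a relative error of at most `ε`. -/
def Holds {k : ℕ} (ε : ℝ) (U N : ℕ) (a : Fin k → ℕ) : Prop :=
  ∃ S : ℝ, Filter.Tendsto (fun z => sing a z) Filter.atTop (nhds S) ∧
    |∑ p ∈ tuples a N, Real.log p * ∏ i, Real.log ((p : ℝ) + a i) - S * N| ≤ (N : ℝ) / Real.log N ^ U ∧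
    (Admissible a → 0 < S ∧
      |((tuples a N).card : ℝ) - S * (N / Real.log N ^ (k + 1))| ≤ ε * (S * (N / Real.log N ^ (k + 1))))

open Classical in
/-- The multiples `n ≤ X` of `D` with `‖φ(n) - β‖ ≤ δ`. -/
noncomputable def target (D X : ℕ) (φ : ℕ → ℝ) (β δ : ℝ) : Finset ℕ :=
  (Icc 1 X).filter (fun n => D ∣ n ∧ distInt (φ n - β) ≤ δ)

open Classical in
/-- Each of the sets `A i = target D X (φ i) (β i) (δ i)` has at least `δ i X / (34 D)` members, and for all but a proportion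
`1 / (log X) ^ U` of the vectors `a ∈ A 1 × ⋯ × A k` the formula of Hardy and Littlewood holds for the primes up to `X`. -/
def FewExceptions {k : ℕ} (ε : ℝ) (D U X : ℕ) (φ : Fin k → ℕ → ℝ) (β δ : Fin k → ℝ) : Prop :=
  (∀ i, δ i * X / (34 * D) ≤ ((target D X (φ i) (β i) (δ i)).card : ℝ)) ∧
  (((Fintype.piFinset (fun i => target D X (φ i) (β i) (δ i))).filter (fun a => ¬ Holds ε U X a)).card : ℝ) ≤
    (∏ i, ((target D X (φ i) (β i) (δ i)).card : ℝ)) / Real.log X ^ U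

/-- `∑_{1 ≤ j ≤ 4 / δ} |∑_{n ≤ X} e(j φ(n) + t n)| ≤ X ^ (1 - ρ)` for all real `t`. -/
def NoLinear (ρ : ℝ) (X : ℕ) (φ : ℕ → ℝ) (δ : ℝ) : Prop :=
  ∀ t : ℝ, ∑ j ∈ Icc 1 ⌈4 / δ⌉₊,
    ‖∑ n ∈ Icc 1 X, Complex.exp (2 * Real.pi * Complex.I * (((j : ℝ) * φ n + t * n : ℝ) : ℂ))‖ ≤ (X : ℝ) ^ (1 - ρ)

lemma nu_eq {k : ℕ} (a : Fin k → ℕ) (p : ℕ) : Pool.Agent.H373R2.T7.nuP (fun i => (a i : ℤ)) p = nu a p := by
  unfold Pool.Agent.H373R2.T7.nuP nu
  congr 1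
  apply filter_congr
  intro r _
  have h1 : ∀ i, ((p : ℤ) ∣ (r : ℤ) + (a i : ℤ)) ↔ p ∣ r + a i := by
    intro i
    rw [← Int.natCast_add, Int.natCast_dvd_natCast]
  simp only [h1]

lemma sing_eq {k : ℕ} (a : Fin k → ℕ) : (fun z => Pool.Agent.H373R2.T7.singZ (fun i => (a i : ℤ)) z) = fun z => sing a z := by
  funext z
  unfold Pool.Agent.H373R2.T7.singZ sing
  apply prod_congr rfl
  intro p _
  rw [nu_eq]

lemma count_eq {k : ℕ} (a : Fin k → ℕ) (N : ℕ) : Pool.Agent.H373R2.T7.tupleCount (fun i => (a i : ℤ)) N =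
    ∑ p ∈ tuples a N, Real.log p * ∏ i, Real.log ((p : ℝ) + a i) := Pool.Agent.H560R3.GB.tupleCount_nat a N

lemma holds_of {k : ℕ} (ε : ℝ) (U N : ℕ) (a : Fin k → ℕ)
    (h : Pool.Agent.Results.MP_68a45e_nt.FamiliesOfShifts.Holds ε U N a) : Holds ε U N a := by
  obtain ⟨S, h1, h2, h3⟩ := h
  rw [sing_eq] at h1
  rw [count_eq] at h2
  exact ⟨S, h1, h2, fun hadm => h3 hadm⟩

theorem general (k D U : ℕ) (hk : 1 ≤ k) (hD : 1 ≤ D) (ε : ℝ) (hε : 0 < ε) (ρ : ℝ) (hρ : 0 < ρ) :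
    ∃ X₀ : ℕ, ∀ X : ℕ, X₀ ≤ X → ∀ (φ : Fin k → ℕ → ℝ) (β δ : Fin k → ℝ),
      (∀ i, 0 < δ i ∧ δ i ≤ 1 / 6 ∧ NoLinear ρ X (φ i) (δ i)) → FewExceptions ε D U X φ β δ := by
  classical
  obtain ⟨h, hh, X₁, h1⟩ := Pool.Agent.H566.arc_family D hD ρ hρ
  obtain ⟨N₀, h2⟩ := Pool.Agent.Results.MP_68a45e_nt.FamiliesOfShifts.first k h 1 1 U hk hh ε hε
  have hD0 : (0 : ℝ) < D := by exact_mod_cast hD
  refine ⟨X₁ + N₀, fun X hX φ β δ hφ => ?_⟩
  have h3 : ∀ i, δ i * X ≤ 34 * D * ((target D X (φ i) (β i) (δ i)).card : ℝ) ∧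
      (Pool.Agent.H566.enSet h (target D X (φ i) (β i) (δ i)) : ℝ) * X ≤
        Real.log X ^ 1 * ((target D X (φ i) (β i) (δ i)).card : ℝ) ^ (2 * h) := by
    intro i
    obtain ⟨g1, g2, g3⟩ := hφ i
    refine h1 X (by omega) (φ i) ⌈4 / δ i⌉₊ g3 (β i) (δ i) g1 g2 (Nat.le_ceil _) _ (fun n => ?_)
    unfold target
    rw [mem_filter]
    rfl
  refine ⟨fun i => ?_, ?_⟩
  · rw [div_le_iff₀ (by positivity)]
    linarith [(h3 i).1]
  have h4 : ∀ i, ∃ s : ℕ → ℕ, Set.InjOn s (Icc 1 (target D X (φ i) (β i) (δ i)).card : Finset ℕ) ∧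
      (∀ m ∈ Icc 1 (target D X (φ i) (β i) (δ i)).card, s m ∈ target D X (φ i) (β i) (δ i)) ∧
      ∀ n ∈ target D X (φ i) (β i) (δ i), ∃ m ∈ Icc 1 (target D X (φ i) (β i) (δ i)).card, s m = n :=
    fun i => Pool.Agent.H566.exists_enum _
  choose s hs1 hs2 hs3 using h4
  have h5 := h2 X (by omega) (fun i => (target D X (φ i) (β i) (δ i)).card) s (by
    intro i m hm
    have h6 := hs2 i m hm
    unfold target at h6
    rw [mem_filter, mem_Icc] at h6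
    rw [one_mul]
    exact h6.1.2) (by
    intro i
    refine le_trans ?_ (h3 i).2
    exact mul_le_mul_of_nonneg_right
      (by exact_mod_cast Pool.Agent.H566.energy_le_enSet h _ (s i) (hs1 i) (hs2 i)) (Nat.cast_nonneg _))
  refine le_trans ?_ h5
  unfold Pool.Agent.Results.MP_68a45e_nt.FamiliesOfShifts.exceptions
  have hsub : (Fintype.piFinset (fun i => target D X (φ i) (β i) (δ i))).filter (fun a => ¬ Holds ε U X a) ⊆
      ((Fintype.piFinset (fun i => Icc 1 (target D X (φ i) (β i) (δ i)).card)).filter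
        (fun m : Fin k → ℕ => ¬ Pool.Agent.Results.MP_68a45e_nt.FamiliesOfShifts.Holds ε U X
          (fun i => s i (m i)))).image (fun m i => s i (m i)) := by
    intro a ha
    rw [mem_filter, Fintype.mem_piFinset] at ha
    have h6 : ∀ i, ∃ m ∈ Icc 1 (target D X (φ i) (β i) (δ i)).card, s i m = a i := fun i => hs3 i (a i) (ha.1 i)
    choose m hm1 hm2 using h6
    have h7 : (fun i => s i (m i)) = a := funext hm2
    rw [mem_image]
    refine ⟨m, ?_, h7⟩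
    rw [mem_filter, Fintype.mem_piFinset, h7]
    exact ⟨hm1, fun hcon => ha.2 (holds_of ε U X a hcon)⟩
  exact_mod_cast (card_le_card hsub).trans card_image_le

theorem polynomials (k D U : ℕ) (hk : 1 ≤ k) (hD : 1 ≤ D) (ε : ℝ) (hε : 0 < ε) (ρ : ℝ) (hρ : 0 < ρ) (d : Fin k → ℕ)
    (hd : ∀ i, 2 ≤ d i) :
    ∃ X₀ : ℕ, ∀ X : ℕ, X₀ ≤ X → ∀ (f : Fin k → ℝ[X]) (β δ : Fin k → ℝ),
      (∀ i, (f i).natDegree = d i ∧ (X : ℝ) ^ (ρ - 1 / (2 : ℝ) ^ (d i - 1)) ≤ δ i ∧ δ i ≤ 1 / 6 ∧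
        ∀ q : ℕ, 1 ≤ q → q ≤ X → δ i / (X : ℝ) ^ (d i - 1) < distInt ((f i).leadingCoeff * q)) →
      FewExceptions ε D U X (fun i n => (f i).eval (n : ℝ)) β δ := by
  classical
  obtain ⟨X₁, h1⟩ := general k D U hk hD ε hε (ρ / 2) (by linarith)
  have h2 : ∀ i, ∃ x : ℕ, ∀ X : ℕ, x ≤ X → ∀ f : ℝ[X], f.natDegree ≤ (d i - 1) + 1 → ∀ δ : ℝ,
      (X : ℝ) ^ (ρ - 1 / (2 : ℝ) ^ (d i - 1)) ≤ δ → δ ≤ 1 / 6 →
      (∀ q : ℕ, 1 ≤ q → q ≤ X → δ / (X : ℝ) ^ (d i - 1) < Pool.Agent.H566.dist1 (f.coeff ((d i - 1) + 1) * q)) →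
      ∀ t : ℝ, ∑ k ∈ Icc 1 ⌈4 / δ⌉₊, ‖∑ n ∈ Icc 1 X, Pool.Agent.H566.ex ((k : ℝ) * f.eval (n : ℝ) + t * n)‖ ≤
        (X : ℝ) ^ (1 - ρ / 2) :=
    fun i => Pool.Agent.H566.poly_hyp (d i - 1) (by have := hd i; omega) ρ hρ
  choose x hx using h2
  refine ⟨X₁ + ∑ i, x i + 1, fun X hX f β δ hf => h1 X (by omega) _ β δ (fun i => ?_)⟩
  obtain ⟨g1, g2, g3, g4⟩ := hf i
  have hxi : x i ≤ ∑ i, x i := single_le_sum (fun j _ => Nat.zero_le (x j)) (mem_univ i)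
  have hX0 : (0 : ℝ) < X := by exact_mod_cast (by omega : 0 < X)
  have hδ0 : 0 < δ i := lt_of_lt_of_le (Real.rpow_pos_of_pos hX0 _) g2
  have hdi : (d i - 1) + 1 = d i := by have := hd i; omega
  have hlc : (f i).leadingCoeff = (f i).coeff ((d i - 1) + 1) := by
    rw [hdi, ← g1]
    rfl
  rw [hlc] at g4
  exact ⟨hδ0, g3, hx i X (by omega) (f i) (by rw [hdi, g1]) (δ i) g2 g3 g4⟩

/-- the arcs of length `X ^ (-θ)` -/
lemma small_arc (θ : ℝ) (hθ : 0 < θ) : ∃ N : ℕ, ∀ X : ℕ, N ≤ X → (X : ℝ) ^ (-θ) ≤ 1 / 6 := by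
  obtain ⟨x₂, -, hx₂⟩ := Pool.Agent.H566.log_pow_le' 0 θ hθ 6
  obtain ⟨N, hN⟩ := exists_nat_gt x₂
  refine ⟨N + 1, fun X hX => ?_⟩
  have hXN : (N : ℝ) ≤ X := by exact_mod_cast (by omega : N ≤ X)
  have hX0 : (0 : ℝ) < X := by exact_mod_cast (by omega : 0 < X)
  have g1 := hx₂ X (hN.le.trans hXN)
  rw [pow_zero, mul_one] at g1
  rw [Real.rpow_neg hX0.le, ← one_div]
  exact one_div_le_one_div_of_le (by norm_num) g1

/-- numbers of finite type -/
lemma finite_type (α c τ θ : ℝ) (e : ℕ) (hc : 0 < c) (hθ : 0 < θ) (he : 1 ≤ e) (hτ : τ < (e : ℝ) + θ)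
    (hα : ∀ q : ℕ, 1 ≤ q → c / (q : ℝ) ^ τ ≤ distInt (α * q)) :
    ∃ N : ℕ, ∀ X : ℕ, N ≤ X → ∀ q : ℕ, 1 ≤ q → q ≤ X → (X : ℝ) ^ (-θ) / (X : ℝ) ^ e < distInt (α * q) := by
  obtain ⟨σ, hσ⟩ : ∃ σ : ℝ, σ = (e + θ - max τ 0) / 2 := ⟨_, rfl⟩
  have he' : (0 : ℝ) < e := by exact_mod_cast (by omega : 0 < e)
  have hmax : max τ 0 < e + θ := max_lt hτ (by linarith)
  have hσ0 : 0 < σ := by rw [hσ]; linarith
  obtain ⟨x₁, -, hx₁⟩ := Pool.Agent.H566.log_pow_le' 0 σ hσ0 (2 / c)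
  obtain ⟨N, hN⟩ := exists_nat_gt x₁
  refine ⟨N + 1, fun X hX q hq1 hqX => ?_⟩
  have hXN : (N : ℝ) ≤ X := by exact_mod_cast (by omega : N ≤ X)
  have hX1 : (1 : ℝ) ≤ X := by exact_mod_cast (by omega : 1 ≤ X)
  have hX0 : (0 : ℝ) < X := by linarith
  have g0 := hx₁ X (hN.le.trans hXN)
  rw [pow_zero, mul_one] at g0
  refine lt_of_lt_of_le ?_ (hα q hq1)
  have hq1' : (1 : ℝ) ≤ q := by exact_mod_cast hq1
  have hqX' : (q : ℝ) ≤ X := by exact_mod_cast hqX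
  have h1 : (q : ℝ) ^ τ ≤ (X : ℝ) ^ (max τ 0) :=
    (Real.rpow_le_rpow_of_exponent_le hq1' (le_max_left _ _)).trans
      (Real.rpow_le_rpow (by linarith) hqX' (le_max_right _ _))
  rw [div_lt_div_iff₀ (by positivity) (Real.rpow_pos_of_pos (by linarith) _)]
  have h2 : (X : ℝ) ^ (-θ) * (X : ℝ) ^ (max τ 0) < c * (X : ℝ) ^ e := by
    have h3 : (X : ℝ) ^ (-θ) * (X : ℝ) ^ (max τ 0) * (X : ℝ) ^ (2 * σ) = (X : ℝ) ^ e := by
      rw [← Real.rpow_add hX0, ← Real.rpow_add hX0, ← Real.rpow_natCast]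
      congr 1
      rw [hσ]; ring
    have h4 : 2 / c ≤ (X : ℝ) ^ (2 * σ) :=
      g0.trans (Real.rpow_le_rpow_of_exponent_le hX1 (by linarith))
    rw [div_le_iff₀ hc] at h4
    have h5 : 0 < (X : ℝ) ^ (-θ) * (X : ℝ) ^ (max τ 0) :=
      mul_pos (Real.rpow_pos_of_pos hX0 _) (Real.rpow_pos_of_pos hX0 _)
    rw [← h3]
    nlinarith
  exact lt_of_le_of_lt (mul_le_mul_of_nonneg_left h1 (Real.rpow_pos_of_pos hX0 _).le) h2

lemma admissible_of (k D : ℕ) (h : ∀ p : ℕ, p.Prime → p ≤ k + 1 → p ∣ D) (a : Fin k → ℕ) (ha : ∀ i, D ∣ a i) :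
    Admissible a := by
  intro p hp
  rcases le_or_gt p (k + 1) with h1 | h1
  · refine ⟨1, fun h2 => ?_, fun i h2 => ?_⟩
    · have h3 := Int.natAbs_dvd_natAbs.2 h2
      simp only [Int.natAbs_natCast, Int.natAbs_one, Nat.dvd_one] at h3
      exact hp.one_lt.ne' h3
    · have h4 : (p : ℤ) ∣ (a i : ℤ) := by exact_mod_cast (h p hp h1).trans (ha i)
      have h5 : (p : ℤ) ∣ 1 := by
        have := dvd_sub h2 h4
        simpa using this
      have h3 := Int.natAbs_dvd_natAbs.2 h5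
      simp only [Int.natAbs_natCast, Int.natAbs_one, Nat.dvd_one] at h3
      exact hp.one_lt.ne' h3
  · haveI : Fact p.Prime := ⟨hp⟩
    obtain ⟨z, hz, hz2⟩ : ∃ z : ZMod p, z ≠ 0 ∧ ∀ i, z + (a i : ZMod p) ≠ 0 := by
      by_contra hcon
      push Not at hcon
      have hsurj : Function.Surjective
          (fun o : Option (Fin k) => o.elim (0 : ZMod p) (fun i => -(a i : ZMod p))) := by
        intro z
        by_cases hz : z = 0
        · exact ⟨none, hz.symm⟩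
        · obtain ⟨i, hi⟩ := hcon z hz
          exact ⟨some i, (eq_neg_of_add_eq_zero_left hi).symm⟩
      have h2 := Fintype.card_le_of_surjective _ hsurj
      rw [ZMod.card, Fintype.card_option, Fintype.card_fin] at h2
      omega
    have hcast : (((z.val : ℕ) : ℤ) : ZMod p) = z := by
      rw [Int.cast_natCast, ZMod.natCast_zmod_val]
    refine ⟨((z.val : ℕ) : ℤ), fun h2 => hz ?_, fun i h2 => hz2 i ?_⟩
    · rw [← hcast]
      exact (ZMod.intCast_zmod_eq_zero_iff_dvd _ p).2 h2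
    · have h3 := (ZMod.intCast_zmod_eq_zero_iff_dvd _ p).2 h2
      rw [Int.cast_add, hcast, Int.cast_natCast] at h3
      exact h3

/-- (1) Arbitrary sequences without linear correlations. (2) Real polynomials of the degrees `d i ≥ 2`, uniformly.
(3) Fixed polynomials with leading coefficients of finite type: all large `X`. (4) Fixed polynomials with one common
irrational leading coefficient: arbitrarily large `X`. (5) If all the primes `p ≤ k + 1` divide `D` (for instance `k = 2`,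
`D = 6`) all the vectors are admissible. -/
theorem result (k D U : ℕ) (hk : 1 ≤ k) (hD : 1 ≤ D) (ε : ℝ) (hε : 0 < ε) :
    (∀ ρ : ℝ, 0 < ρ → ∃ X₀ : ℕ, ∀ X : ℕ, X₀ ≤ X → ∀ (φ : Fin k → ℕ → ℝ) (β δ : Fin k → ℝ),
      (∀ i, 0 < δ i ∧ δ i ≤ 1 / 6 ∧ NoLinear ρ X (φ i) (δ i)) → FewExceptions ε D U X φ β δ) ∧
    (∀ ρ : ℝ, 0 < ρ → ∀ d : Fin k → ℕ, (∀ i, 2 ≤ d i) →
      ∃ X₀ : ℕ, ∀ X : ℕ, X₀ ≤ X → ∀ (f : Fin k → ℝ[X]) (β δ : Fin k → ℝ),
      (∀ i, (f i).natDegree = d i ∧ (X : ℝ) ^ (ρ - 1 / (2 : ℝ) ^ (d i - 1)) ≤ δ i ∧ δ i ≤ 1 / 6 ∧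
        ∀ q : ℕ, 1 ≤ q → q ≤ X → δ i / (X : ℝ) ^ (d i - 1) < distInt ((f i).leadingCoeff * q)) →
      FewExceptions ε D U X (fun i n => (f i).eval (n : ℝ)) β δ) ∧
    (∀ (f : Fin k → ℝ[X]) (c τ θ : Fin k → ℝ), (∀ i, 2 ≤ (f i).natDegree ∧ 0 < c i ∧ 0 < θ i ∧
        θ i < 1 / (2 : ℝ) ^ ((f i).natDegree - 1) ∧ τ i < (f i).natDegree - 1 + θ i ∧
        ∀ q : ℕ, 1 ≤ q → c i / (q : ℝ) ^ (τ i) ≤ distInt ((f i).leadingCoeff * q)) →
      ∃ X₀ : ℕ, ∀ X : ℕ, X₀ ≤ X → ∀ β : Fin k → ℝ,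
        FewExceptions ε D U X (fun i n => (f i).eval (n : ℝ)) β (fun i => (X : ℝ) ^ (-θ i))) ∧
    (∀ (f : Fin k → ℝ[X]) (θ : Fin k → ℝ) (α : ℝ), Irrational α → (∀ i, (f i).leadingCoeff = α ∧
        2 ≤ (f i).natDegree ∧ 0 < θ i ∧ θ i < 1 / (2 : ℝ) ^ ((f i).natDegree - 1)) →
      ∀ X₁ : ℕ, ∃ X : ℕ, X₁ ≤ X ∧ ∀ β : Fin k → ℝ,
        FewExceptions ε D U X (fun i n => (f i).eval (n : ℝ)) β (fun i => (X : ℝ) ^ (-θ i))) ∧
    ((∀ p : ℕ, p.Prime → p ≤ k + 1 → p ∣ D) → ∀ a : Fin k → ℕ, (∀ i, D ∣ a i) → Admissible a) := by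
  classical
  haveI : Nonempty (Fin k) := ⟨⟨0, by omega⟩⟩
  have hmin : ∀ (d : Fin k → ℕ) (θ : Fin k → ℝ), (∀ i, θ i < 1 / (2 : ℝ) ^ (d i - 1)) →
      ∃ ρ : ℝ, 0 < ρ ∧ ∀ i, ρ ≤ 1 / (2 : ℝ) ^ (d i - 1) - θ i := by
    intro d θ h
    obtain ⟨i₀, hi₀⟩ := Finite.exists_min (fun i => 1 / (2 : ℝ) ^ (d i - 1) - θ i)
    exact ⟨_, by have := h i₀; linarith, hi₀⟩
  have hpow : ∀ (X : ℕ) (ρ θ y : ℝ), 1 ≤ X → ρ ≤ y - θ → (X : ℝ) ^ (ρ - y) ≤ (X : ℝ) ^ (-θ) := by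
    intro X ρ θ y hX h
    exact Real.rpow_le_rpow_of_exponent_le (by exact_mod_cast hX) (by linarith)
  refine ⟨fun ρ hρ => general k D U hk hD ε hε ρ hρ, fun ρ hρ d hd => polynomials k D U hk hD ε hε ρ hρ d hd, ?_, ?_,
    fun h a ha => admissible_of k D h a ha⟩
  · intro f c τ θ hf
    obtain ⟨ρ, hρ, hρ2⟩ := hmin (fun i => (f i).natDegree) θ (fun i => (hf i).2.2.2.1)
    obtain ⟨X₁, h1⟩ := polynomials k D U hk hD ε hε ρ hρ (fun i => (f i).natDegree) (fun i => (hf i).1)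
    have h2 : ∀ i, ∃ N : ℕ, ∀ X : ℕ, N ≤ X → (X : ℝ) ^ (-θ i) ≤ 1 / 6 := fun i => small_arc (θ i) (hf i).2.2.1
    have h3 : ∀ i, ∃ N : ℕ, ∀ X : ℕ, N ≤ X → ∀ q : ℕ, 1 ≤ q → q ≤ X →
        (X : ℝ) ^ (-θ i) / (X : ℝ) ^ ((f i).natDegree - 1) < distInt ((f i).leadingCoeff * q) := by
      intro i
      obtain ⟨g1, g2, g3, g4, g5, g6⟩ := hf i
      refine finite_type _ (c i) (τ i) (θ i) ((f i).natDegree - 1) g2 g3 (by omega) ?_ g6
      have : (((f i).natDegree - 1 : ℕ) : ℝ) = (f i).natDegree - 1 := by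
        rw [Nat.cast_sub (by omega), Nat.cast_one]
      rw [this]
      exact g5
    choose n2 hn2 using h2
    choose n3 hn3 using h3
    refine ⟨X₁ + ∑ i, n2 i + ∑ i, n3 i + 1, fun X hX β => h1 X (by omega) f β _ (fun i => ?_)⟩
    have e2 : n2 i ≤ ∑ i, n2 i := single_le_sum (fun j _ => Nat.zero_le (n2 j)) (mem_univ i)
    have e3 : n3 i ≤ ∑ i, n3 i := single_le_sum (fun j _ => Nat.zero_le (n3 j)) (mem_univ i)
    exact ⟨rfl, hpow X ρ (θ i) _ (by omega) (hρ2 i), hn2 i X (by omega), hn3 i X (by omega)⟩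
  · intro f θ α hirr hf X₁
    obtain ⟨ρ, hρ, hρ2⟩ := hmin (fun i => (f i).natDegree) θ (fun i => (hf i).2.2.2)
    obtain ⟨X₂, h1⟩ := polynomials k D U hk hD ε hε ρ hρ (fun i => (f i).natDegree) (fun i => (hf i).2.1)
    have h2 : ∀ i, ∃ N : ℕ, ∀ X : ℕ, N ≤ X → (X : ℝ) ^ (-θ i) ≤ 1 / 6 := fun i => small_arc (θ i) (hf i).2.2.1
    choose n2 hn2 using h2
    obtain ⟨Q, hNQ, hQ1, hQ⟩ := Pool.Agent.H566.good_denominators α hirr (X₁ + X₂ + ∑ i, n2 i + 3)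
    refine ⟨Q - 1, by omega, fun β => h1 (Q - 1) (by omega) f β _ (fun i => ?_)⟩
    have e2 : n2 i ≤ ∑ i, n2 i := single_le_sum (fun j _ => Nat.zero_le (n2 j)) (mem_univ i)
    obtain ⟨g1, g2, g3, g4⟩ := hf i
    have hX3 : (2 : ℝ) ≤ ((Q - 1 : ℕ) : ℝ) := by exact_mod_cast (by omega : 2 ≤ Q - 1)
    have hX0 : (0 : ℝ) < ((Q - 1 : ℕ) : ℝ) := by linarith
    have hsm := hn2 i (Q - 1) (by omega)
    refine ⟨rfl, hpow (Q - 1) ρ (θ i) _ (by omega) (hρ2 i), hsm, fun q hq1 hqQ => ?_⟩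
    rw [g1]
    refine lt_of_lt_of_le ?_ (hQ q hq1 (by omega))
    have hQr : (Q : ℝ) = ((Q - 1 : ℕ) : ℝ) + 1 := by
      have : Q = (Q - 1) + 1 := by omega
      exact_mod_cast this
    have he : 1 ≤ (f i).natDegree - 1 := by omega
    have h4 : ((Q - 1 : ℕ) : ℝ) ≤ ((Q - 1 : ℕ) : ℝ) ^ ((f i).natDegree - 1) := by
      calc ((Q - 1 : ℕ) : ℝ) = ((Q - 1 : ℕ) : ℝ) ^ 1 := (pow_one _).symm
        _ ≤ _ := pow_le_pow_right₀ (by linarith) he
    rw [div_lt_div_iff₀ (by positivity) (by positivity), hQr]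
    nlinarith

end Pool.Agent.Results.MP_c0d11e_nt.PhaseShifts
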