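import Mathlib
import Pool.Agent.H528.Fin1

set_option autoImplicit false

/-!
# The bounds of the linear sieve for almost all tuples of shifts from arbitrary sparse sets

Let `0 ≤ δ < 1` and `Θ = max (5 / 9) ((1 + δ) / 2)`. For every set `A` of shifts in `[1, N]`, however sparse, all but
`C(|A|, k - 1) N ^ δ (log N) ^ B` of the `k`-element sets `H` of shifts from `A` satisfy the bounds which sieve
weights of level `Θ` give in each of the `k` variables:

* the asymptotic lower and upper bounds of the linear sieve for the number of the primes `p ≤ N` such that none of the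
  numbers `p + h`, `h ∈ H`, has a prime factor below `N ^ ζ`, for all `0 < ζ < Θ`;
* the upper bound with the constant `(2 / Θ) ^ k + ε` for the prime tuples `p`, `p + h`, `h ∈ H`: `(18 / 5) ^ k` for
  `δ = 0`, and in the limit `δ → 1` the constant `2 ^ k` of the parity barrier.
-/

namespace Pool.Agent.Results.MP_c0d11e_nt.SharpSieveBoundsSparseShifts

open Finset Filter
open Pool.Agent.H387R2.Uni
open Real (eulerMascheroniConstant)

/-- the number of primes `p ≤ N` such that all `p + h`, `h ∈ H`, are prime -/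
def primesWithShifts (H : Finset ℕ) (N : ℕ) : ℕ :=
  ((Icc 1 N).filter (fun p => p.Prime ∧ ∀ h ∈ H, (p + h).Prime)).card

open Classical in
/-- the number of primes `p ≤ N` such that all prime factors of all the numbers `p + h`, `h ∈ H`, are at least
`N ^ ζ` -/
noncomputable def roughShifts (H : Finset ℕ) (ζ : ℝ) (N : ℕ) : ℕ :=
  ((Icc 1 N).filter (fun p => p.Prime ∧ ∀ h ∈ H, ∀ q : ℕ, q.Prime → q ∣ p + h → (N : ℝ) ^ ζ ≤ q)).card

/-- the number of the primes `p ≤ N` with all `p + h`, `h ∈ H`, prime, according to Hardy and Littlewood -/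
noncomputable def expected (H : Finset ℕ) (N : ℕ) : ℝ := CT (insert 0 H) * (N / Real.log N ^ (H.card + 1))

/-- the functions `F` and `f` of the linear sieve on `[1, ∞)`; they are determined by these equations, of which `f_log`
is a consequence of the others -/
structure LinearSieve (F f : ℝ → ℝ) : Prop where
  continuous_F : ContinuousOn F (Set.Ici 1)
  continuous_f : ContinuousOn f (Set.Ici 1)
  F_start : ∀ s, 1 ≤ s → s ≤ 3 → s * F s = 2 * Real.exp eulerMascheroniConstant
  f_start : ∀ s, 1 ≤ s → s ≤ 2 → s * f s = 0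
  f_log : ∀ s, 2 ≤ s → s ≤ 4 → s * f s = 2 * Real.exp eulerMascheroniConstant * Real.log (s - 1)
  F_next : ∀ s, 3 ≤ s → s * F s = 2 * Real.exp eulerMascheroniConstant + ∫ t in (3 : ℝ)..s, f (t - 1)
  f_next : ∀ s, 2 ≤ s → s * f s = ∫ t in (2 : ℝ)..s, F (t - 1)

/-- the level of the sieve, if there may be `N ^ δ` times as many exceptions as in the case `δ = 0` -/
noncomputable def level (δ : ℝ) : ℝ := max (5 / 9) ((1 + δ) / 2)

open Pool.Agent.Y822 Pool.Agent.Y822.Par3 Pool.Agent.H528.UpLo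

lemma rough_eq (H : Finset ℕ) (ζ : ℝ) (N : ℕ) (hN : 1 ≤ N) : roughShifts H ζ N = rgh H (zN ζ N) N := by
  classical
  unfold roughShifts rgh
  congr 1
  refine filter_congr fun p _ => ?_
  refine and_congr_right fun _ => forall₂_congr fun h _ => ?_
  constructor
  · intro h1 q hq hqz hqd
    have h2 := h1 q hq hqd
    have h3 := zN_lt' (ε₁ := ζ) hN h2
    omega
  · intro h1 q hq hqd
    by_contra h2
    push Not at h2
    exact h1 q hq (le_zN h2) hqd

open Classical in
theorem result :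
    -- the conjectured constants are convergent products, positive for admissible patterns
    (∀ H : Finset ℕ, HasProd (fun p : Nat.Primes => locT (insert 0 H) p) (CT (insert 0 H)) ∧
      (Adm (insert 0 H) → 0 < CT (insert 0 H))) ∧
    -- the bounds of the linear sieve, outside few sets of shifts
    ∃ F f : ℝ → ℝ, LinearSieve F f ∧
      ∀ δ : ℝ, 0 ≤ δ → δ < 1 → ∀ ζ : ℝ, 0 < ζ → ζ < level δ → ∀ k : ℕ, 1 ≤ k → ∀ ε : ℝ, 0 < ε →
      ∃ B N₀ : ℕ, ∀ N : ℕ, N₀ ≤ N → ∀ A : Finset ℕ, (∀ a ∈ A, 1 ≤ a ∧ a ≤ N) →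
        (((A.powersetCard k).filter (fun H => Adm (insert 0 H) ∧
          ¬ (((Real.exp (-eulerMascheroniConstant) / ζ * f (level δ / ζ)) ^ k - ε) * expected H N ≤
                roughShifts H ζ N ∧
              roughShifts H ζ N ≤
                ((Real.exp (-eulerMascheroniConstant) / ζ * F (level δ / ζ)) ^ k + ε) * expected H N ∧
              primesWithShifts H N ≤ ((2 / level δ) ^ k + ε) * expected H N))).card : ℝ) ≤
          A.card.choose (k - 1) * ((N : ℝ) ^ δ * Real.log N ^ B) := by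
  obtain ⟨F, f, hSF⟩ := Pool.Agent.Q148.FN.SFu
  refine ⟨fun H => ⟨CT_hasProd _, fun hA => ?_⟩, F, f, ?_, fun δ hδ hδ1 ζ hζ hζ1 k hk ε hε => ?_⟩
  · rw [← CT_en]
    apply Pool.Agent.H386R2.HL.singularSeries_pos (en_inj _)
    intro p hp
    rw [nu_en]
    exact hA p hp
  · refine ⟨hSF.cF, hSF.cf, fun s h1 h2 => ?_, fun s h1 h2 => ?_, fun s h1 h2 => ?_, hSF.eF, hSF.ef⟩
    · rw [hSF.F3 s h1 h2]
      field_simp
    · rw [hSF.f2 s h1 h2, mul_zero]
    · rw [hSF.f4 s h1 h2]
      field_simp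
  · obtain ⟨k, rfl⟩ : ∃ j, k = j + 1 := ⟨k - 1, by omega⟩
    obtain ⟨B, hB⟩ := Pool.Agent.H528.Fin1.uplo2 _ F f hSF δ ζ hδ hδ1 hζ hζ1 k ε hε
    obtain ⟨B', hB'⟩ := Pool.Agent.H528.Fin1.prime2 δ hδ hδ1 k ε hε
    have e2 := ev_logN (eventually_ge_atTop (2 : ℝ))
    obtain ⟨N₀, hN₀⟩ := eventually_atTop.1 (hB.and (hB'.and e2))
    refine ⟨B + B' + 1, max N₀ 1, fun N hN A hA => ?_⟩
    obtain ⟨h1, h2, h3⟩ := hN₀ N ((le_max_left _ _).trans hN)
    rw [Nat.add_sub_cancel]
    have hL1 : 1 ≤ Real.log N := by linarith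
    have t1 := h1 A hA ((A.powersetCard (k + 1)).filter (fun H => Adm (pat H) ∧
      ¬ ((cS f (Pool.Agent.H528.Mod.Th δ) ζ ^ (k + 1) - ε) * CT (pat H) * (N / Real.log N ^ (k + 2)) ≤
          rgh H (zN ζ N) N ∧ (rgh H (zN ζ N) N : ℝ) ≤
          (cS F (Pool.Agent.H528.Mod.Th δ) ζ ^ (k + 1) + ε) * CT (pat H) * (N / Real.log N ^ (k + 2)))))
      (fun H hH => by
        rw [mem_filter] at hH
        exact ⟨hH.1, hH.2.1, hH.2.2⟩)
    have t2 := h2 A hA ((A.powersetCard (k + 1)).filter (fun H => Adm (pat H) ∧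
      ((2 / Pool.Agent.H528.Mod.Th δ) ^ (k + 1) + ε) * CT (pat H) * (N / Real.log N ^ (k + 2)) < piH H N))
      (fun H hH => by
        rw [mem_filter] at hH
        exact ⟨hH.1, hH.2.1, hH.2.2⟩)
    have t3 := card_union_le ((A.powersetCard (k + 1)).filter (fun H => Adm (pat H) ∧
      ¬ ((cS f (Pool.Agent.H528.Mod.Th δ) ζ ^ (k + 1) - ε) * CT (pat H) * (N / Real.log N ^ (k + 2)) ≤
          rgh H (zN ζ N) N ∧ (rgh H (zN ζ N) N : ℝ) ≤
          (cS F (Pool.Agent.H528.Mod.Th δ) ζ ^ (k + 1) + ε) * CT (pat H) * (N / Real.log N ^ (k + 2)))))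
      ((A.powersetCard (k + 1)).filter (fun H => Adm (pat H) ∧
      ((2 / Pool.Agent.H528.Mod.Th δ) ^ (k + 1) + ε) * CT (pat H) * (N / Real.log N ^ (k + 2)) < piH H N))
    refine (Nat.cast_le.2 ((card_le_card ?_).trans t3)).trans ?_
    · intro H hH
      rw [mem_filter] at hH
      obtain ⟨g1, g2, g3⟩ := hH
      have g4 := (mem_powersetCard.1 g1).2
      rw [rough_eq H ζ N ((le_max_right _ _).trans hN)] at g3
      rw [mem_union, mem_filter, mem_filter]
      by_contra g5
      push Not at g5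
      obtain ⟨g6, g7⟩ := g5
      have g8 := g6 g1 g2
      have g9 := g7 g1 g2
      apply g3
      unfold expected
      rw [g4]
      refine ⟨?_, ?_, ?_⟩
      · rw [← mul_assoc]
        exact g8.1
      · rw [← mul_assoc]
        exact g8.2
      · rw [← mul_assoc]
        exact g9
    · push_cast
      have g1 : Real.log N ^ B ≤ Real.log N ^ (B + B') := pow_le_pow_right₀ hL1 (by omega)
      have g2 : Real.log N ^ B' ≤ Real.log N ^ (B + B') := pow_le_pow_right₀ hL1 (by omega)
      have g3 : Real.log N ^ B + Real.log N ^ B' ≤ Real.log N ^ (B + B' + 1) := by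
        rw [pow_succ]
        have : 2 * Real.log N ^ (B + B') ≤ Real.log N * Real.log N ^ (B + B') :=
          mul_le_mul_of_nonneg_right h3 (by positivity)
        linarith
      have g4 : ((A.card.choose k : ℕ) : ℝ) * ((N : ℝ) ^ δ * (Real.log N ^ B + Real.log N ^ B')) ≤
          A.card.choose k * ((N : ℝ) ^ δ * Real.log N ^ (B + B' + 1)) :=
        mul_le_mul_of_nonneg_left (mul_le_mul_of_nonneg_left g3 (by positivity)) (Nat.cast_nonneg _)
      have g5 : ((A.card.choose k : ℕ) : ℝ) * ((N : ℝ) ^ δ * (Real.log N ^ B + Real.log N ^ B')) =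
        A.card.choose k * ((N : ℝ) ^ δ * Real.log N ^ B) + A.card.choose k * ((N : ℝ) ^ δ * Real.log N ^ B') := by ring
      linarith

end Pool.Agent.Results.MP_c0d11e_nt.SharpSieveBoundsSparseShifts
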