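import Pool.Agent.H561.E3.K18

/-!
# Prime triples `p, p + h_1, p + h_2` with two members replaced by products of two primes: the formula of Hardy and Littlewood
with an error `x / (log x) ^ A`, for all windows, for almost all shifts in boxes of log-power size

For all `k` and `A` there are `u` and `G` such that for all `E` and all large `x` the following holds. Let `S_1, …, S_k` be
arbitrary sets of primes in `((log x) ^ u, (log x) ^ E]` and let `[b_1, b_1 + H) × … × [b_k, b_k + H)` be ANY box of side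
`H ≥ (log x) ^ (E + G)` (`H` may be a power of `log x`). All the vectors `h` of distinct nonzero integers of this box, with at
most `H ^ k / (log x) ^ A` exceptions, have the following property: for ALL `N₁ ≤ N₂ ≤ x` with `N₁ + b_i ≥ 0`,
`N₂ + b_i + H ≤ x` the number of the primes `p ∈ (N₁, N₂]` for which every `p + h_i` is the product of a prime from `S_i` and a
prime is

`𝔖(0, h_1, …, h_k) ∑_{N₁ < n ≤ N₂} (1 / log n) ∏_i ∑_{s ∈ S_i, 2 s ≤ n + h_i} 1 / (s log ((n + h_i) / s))`

up to an error of at most `x / (log x) ^ A`. The main term is the precise one (`1 / log n` is the density of the primes at `n`,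
and the sum over `s ∈ S_i` is the density of the products at `n + h_i`), so the relative error is a power of `log x` with any
prescribed exponent (if the sums `∑_{s ∈ S_i} 1 / s` and the length of the window are not too small), and there is one
exceptional set for all windows. The triples of the problem are the case `k = 2`.

Proof: `Pool.Agent.H561.E2` (circle method in short intervals with arbitrary weights: the formula with von Mangoldt weights and a
log-power saving) for short windows and for the subsets of the `S_i` in short intervals, and a partial summation in several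
variables (`Pool.Agent.H561.E3.K14` to `K18`).
-/

set_option autoImplicit false

namespace Pool.Agent.Results.MP_c0d11e_nt.TriplesLogPowerPrecision

open Finset Filter

/-- `m` is the product of an element of `S` and a prime -/
def ProductOfTwo (S : Finset ℕ) (m : ℤ) : Prop := ∃ s ∈ S, ∃ q : ℕ, q.Prime ∧ m = s * q

open Classical in
/-- the number of the primes `p`, `N₁ < p ≤ N₂`, such that every `p + h_i` is the product of an element of `S_i` and a prime -/
noncomputable def count {k : ℕ} (S : Fin k → Finset ℕ) (h : Fin k → ℤ) (N₁ N₂ : ℕ) : ℕ :=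
  ((Ioc N₁ N₂).filter (fun p : ℕ => p.Prime ∧ ∀ i, ProductOfTwo (S i) (p + h i))).card

open Classical in
/-- the number of the residue classes modulo `p` occupied by `0, h_1, …, h_k` -/
noncomputable def ν {k : ℕ} (h : Fin k → ℤ) (p : ℕ) : ℕ :=
  ((insert (0 : ℤ) (univ.image h)).image (fun a : ℤ => (a : ZMod p))).card

/-- the singular series of `0, h_1, …, h_k`: the product of the `(1 - 1 / p) ^ (-(k + 1)) * (1 - ν_p / p)` over the primes -/
noncomputable def singularSeries {k : ℕ} (h : Fin k → ℤ) : ℝ :=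
  ∏' p : Nat.Primes, (1 - 1 / ((p : ℕ) : ℝ))⁻¹ ^ (k + 1) * (1 - (ν h p : ℝ) / ((p : ℕ) : ℝ))

/-- the density of the products of an element of `S` and a prime at `m`: the sum of the `1 / (s log (m / s))` over the `s ∈ S`
with `2 s ≤ m` -/
noncomputable def density (S : Finset ℕ) (m : ℤ) : ℝ :=
  ∑ s ∈ S, if 2 * (s : ℤ) ≤ m then 1 / ((s : ℝ) * Real.log ((m : ℝ) / s)) else 0

/-- the expected number (the term with `n = 1` is `0`, since `x / 0 = 0`) -/
noncomputable def expected {k : ℕ} (S : Fin k → Finset ℕ) (h : Fin k → ℤ) (N₁ N₂ : ℕ) : ℝ :=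
  singularSeries h * ∑ n ∈ Ioc N₁ N₂, (∏ i, density (S i) (n + h i)) / Real.log n

open Classical in
/-- the vectors `h` of distinct nonzero integers of the box `[b_1, b_1 + H) × … × [b_k, b_k + H)` for which the formula fails, up
to an error of at most `x / (log x) ^ A`, for some window `(N₁, N₂]` with `N₂ ≤ x`, `0 ≤ N₁ + b_i` and `N₂ + b_i + H ≤ x` -/
noncomputable def exceptional {k : ℕ} (A : ℕ) (S : Fin k → Finset ℕ) (x H : ℕ) (b : Fin k → ℤ) : Finset (Fin k → ℤ) :=
  (Fintype.piFinset (fun i => Ico (b i) (b i + H))).filter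
    (fun h => (∀ i, h i ≠ 0) ∧ Function.Injective h ∧
      ¬ ∀ N₁ N₂ : ℕ, N₁ ≤ N₂ → N₂ ≤ x → (∀ i, 0 ≤ (N₁ : ℤ) + b i ∧ (N₂ : ℤ) + b i + H ≤ x) →
        |(count S h N₁ N₂ : ℝ) - expected S h N₁ N₂| ≤ x / Real.log x ^ A)

lemma prod_iff (S : Finset ℕ) (hS : ∀ p ∈ S, p.Prime) (m : ℤ) : ProductOfTwo S m ↔ Pool.Agent.H561.E2.PS S m.toNat := by
  constructor
  · rintro ⟨p, hp, q, hq, hm⟩
    refine ⟨p, hp, q, hq, ?_⟩
    rw [hm]
    exact_mod_cast Int.toNat_natCast (p * q)
  · rintro ⟨p, hp, q, hq, hm⟩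
    refine ⟨p, hp, q, hq, ?_⟩
    have h1 : 0 < p * q := Nat.mul_pos (hS p hp).pos hq.pos
    have h2 : ((m.toNat : ℕ) : ℤ) = m := Int.toNat_of_nonneg (by omega)
    rw [← h2, hm]
    push_cast
    rfl

lemma ser_eq {k : ℕ} (h : Fin k → ℤ) : singularSeries h = Pool.Agent.H561.E2.singT (fun _ => 1) h := by
  rw [← Pool.Agent.H561.E2.singD_eq]
  unfold singularSeries Pool.Agent.H561.E2.singD
  apply tprod_congr
  intro p
  have : ν h (p : ℕ) = Pool.Agent.H561.E2.omg (fun _ => 1) h p := Pool.Agent.H561.E2.occ_eq h p p.2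
  rw [this]

lemma exp_eq {k : ℕ} (S : Fin k → Finset ℕ) (h : Fin k → ℤ) (N₁ N₂ : ℕ) :
    expected S h N₁ N₂ = Pool.Agent.H561.E2.singT (fun _ => 1) h * ∑ n ∈ Ioc N₁ N₂, Pool.Agent.H561.E3.ggk S h n := by
  unfold expected
  rw [ser_eq]
  congr 1
  apply sum_congr rfl
  intro n _
  unfold Pool.Agent.H561.E3.ggk density Pool.Agent.H561.E3.hh
  congr 1
  apply prod_congr rfl
  intro i _
  apply sum_congr rfl
  intro s _
  push_cast
  rfl

/-- **A prime and products of two primes: the formula of Hardy and Littlewood with an error `x / (log x) ^ A` for all windows, for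
almost all vectors of shifts of every box of log-power size.** -/
theorem result (k A : ℕ) : ∃ u G : ℕ, ∀ E : ℕ, ∀ᶠ x : ℕ in atTop, ∀ (S : Fin k → Finset ℕ) (H : ℕ) (b : Fin k → ℤ),
    (∀ i, ∀ s ∈ S i, s.Prime ∧ Real.log x ^ u < s ∧ (s : ℝ) ≤ Real.log x ^ E) → Real.log x ^ (E + G) ≤ H →
      ((exceptional A S x H b).card : ℝ) ≤ (H : ℝ) ^ k / Real.log x ^ A := by
  classical
  obtain ⟨u, G, hT⟩ := Pool.Agent.H561.E3.sharpT k A
  refine ⟨u, G, fun E => ?_⟩
  obtain ⟨X₀, hT⟩ := hT E
  refine Filter.eventually_atTop.2 ⟨X₀, fun x hx S H b hS hH => ?_⟩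
  refine le_trans ?_ (hT x hx S hS H hH b)
  have hsub : exceptional A S x H b ⊆ (Fintype.piFinset (fun i : Fin k => Ico (b i) (b i + H))).filter (fun h =>
      Pool.Agent.H561.E2.NDeg (fun _ => 1) h ∧
      ¬ ∀ N₁ N₂ : ℕ, N₂ ≤ x → (∀ i, 0 ≤ (N₁ : ℤ) + b i ∧ (N₂ : ℤ) + b i + H ≤ x) → N₁ ≤ N₂ →
        |(Pool.Agent.H561.E2.cntE (fun _ => 1) S N₁ N₂ h : ℝ) - Pool.Agent.H561.E2.singT (fun _ => 1) h *
          ∑ n ∈ Ioc N₁ N₂, Pool.Agent.H561.E3.ggk S h n| ≤ x / (Real.log x) ^ A) := by
    intro h hh
    unfold exceptional at hh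
    rw [mem_filter] at hh
    rw [mem_filter]
    obtain ⟨h1, h2, h3, h4⟩ := hh
    refine ⟨h1, ⟨h2, ?_⟩, fun h5 => h4 fun N₁ N₂ n1 n2 n3 => ?_⟩
    · intro i j hij h6
      unfold Pool.Agent.H561.E2.DD at h6
      exact hij (h3 (by linarith))
    · have h6 := h5 N₁ N₂ n2 n3 n1
      have e1 : count S h N₁ N₂ = Pool.Agent.H561.E2.cntE (fun _ => 1) S N₁ N₂ h := by
        unfold count Pool.Agent.H561.E2.cntE
        congr 1
        apply filter_congr
        intro n _
        apply and_congr_right
        intro _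
        apply forall_congr'
        intro i
        unfold Pool.Agent.H561.E2.LFo
        rw [one_mul]
        exact prod_iff (S i) (fun p hp => (hS i p hp).1) _
      rw [e1, exp_eq]
      exact h6
  exact_mod_cast card_le_card hsub

end Pool.Agent.Results.MP_c0d11e_nt.TriplesLogPowerPrecision
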